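import Mathlib

set_option autoImplicit false

namespace H947FG

theorem analysis (X l D : ℝ) (hX : Real.log 16 ≤ X) (hl : 1 / 2 ≤ l)
    (hD : D ≤ 300 * (Real.log 2 + l)) (hD0 : 0 ≤ D)
    (h : 2 * X ≤ D * (Real.log 4 +
      17000 * (1 + Real.log (1 + (Real.log 2 + l))) * (Real.log 2 + l))) :
    (1 / 10000) * Real.sqrt (X / Real.log X) ≤ l := by
  have hlog2 : Real.log 2 < 7 / 10 := by have := Real.log_two_lt_d9; linarith
  have hlog2' : 693 / 1000 < Real.log 2 := by have := Real.log_two_gt_d9; linarith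
  have h16 : Real.log 16 = 4 * Real.log 2 := by
    rw [show (16 : ℝ) = 2 ^ 4 by norm_num, Real.log_pow]; norm_num
  have h4 : Real.log 4 = 2 * Real.log 2 := by
    rw [show (4 : ℝ) = 2 ^ 2 by norm_num, Real.log_pow]; norm_num
  have hX2 : 2772 / 1000 ≤ X := by rw [h16] at hX; linarith
  have hX0 : 0 < X := by linarith
  have hlogX : 1 ≤ Real.log X := by
    rw [Real.le_log_iff_exp_le hX0]
    have := Real.exp_one_lt_d9
    linarith
  obtain ⟨L, hL⟩ : ∃ L : ℝ, L = Real.log 2 + l := ⟨_, rfl⟩
  rw [← hL] at h hD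
  have hL1 : L ≤ 24 / 10 * l := by rw [hL]; linarith
  have hL0 : 1 ≤ L := by rw [hL]; linarith
  rw [h4] at h
  have hM0 : 0 ≤ Real.log (1 + L) := Real.log_nonneg (by linarith)
  obtain ⟨M, hM⟩ : ∃ M : ℝ, M = 1 + Real.log (1 + L) := ⟨_, rfl⟩
  rw [← hM] at h
  have hM1 : 1 ≤ M := by rw [hM]; linarith
  have hl0 : 0 < l := by linarith
  have hML : L ≤ M * L := by nlinarith
  have hstep1 : 2 * Real.log 2 + 17000 * M * L ≤ 17002 * (M * L) := by
    have : Real.log 2 ≤ L := by rw [hL]; linarith
    nlinarith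
  have hML0 : 0 ≤ M * L := by positivity
  have hstep2 : 2 * X ≤ (300 * L) * (17002 * (M * L)) := by
    calc 2 * X ≤ D * (2 * Real.log 2 + 17000 * M * L) := h
      _ ≤ D * (17002 * (M * L)) := mul_le_mul_of_nonneg_left hstep1 hD0
      _ ≤ (300 * L) * (17002 * (M * L)) := mul_le_mul_of_nonneg_right hD (by positivity)
  have hLL : L * L ≤ 576 / 100 * (l * l) := by nlinarith
  have hstep3 : X ≤ 15000000 * (M * (l * l)) := by
    have h1 : X ≤ 2550300 * (M * (L * L)) := by nlinarith
    have h2 : M * (L * L) ≤ M * (576 / 100 * (l * l)) :=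
      mul_le_mul_of_nonneg_left hLL (by linarith)
    have h3 : 0 ≤ M * (l * l) := by positivity
    nlinarith
  have hXl0 : 0 ≤ X / Real.log X := by positivity
  by_cases hcase : Real.sqrt (X / Real.log X) ≤ l
  · have : 0 ≤ Real.sqrt (X / Real.log X) := Real.sqrt_nonneg _
    linarith
  · push Not at hcase
    have h5 : Real.sqrt (X / Real.log X) ≤ X := by
      rw [Real.sqrt_le_left hX0.le]
      have : X / Real.log X ≤ X := div_le_self hX0.le hlogX
      nlinarith
    have h6 : 1 + L ≤ X ^ 3 := by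
      have h7 : l ≤ X := (hcase.le).trans h5
      have h8 : 1 + L ≤ 1 + 24 / 10 * X := by linarith
      have h9 : (2772 / 1000) * X ≤ X * X := by nlinarith
      have h10 : (2772 / 1000) * (2772 / 1000) * X ≤ X ^ 3 := by nlinarith
      nlinarith
    have h11 : Real.log (1 + L) ≤ 3 * Real.log X := by
      have := Real.log_le_log (by linarith) h6
      rw [Real.log_pow] at this
      norm_num at this
      exact this
    have h12 : M ≤ 4 * Real.log X := by rw [hM]; linarith
    have h13 : X ≤ 100000000 * (l * l) * Real.log X := by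
      have h14 : M * (l * l) ≤ (4 * Real.log X) * (l * l) :=
        mul_le_mul_of_nonneg_right h12 (by positivity)
      have h15 : 0 ≤ Real.log X * (l * l) := by positivity
      nlinarith
    have h16 : X / Real.log X ≤ (10000 * l) ^ 2 := by
      rw [div_le_iff₀ (by linarith)]
      nlinarith
    have h17 : Real.sqrt (X / Real.log X) ≤ 10000 * l := by
      rw [Real.sqrt_le_left (by positivity)]
      exact h16
    linarith

end H947FG
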