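import Mathlib

/-!
# Point sets in `ℝ³` without five coplanar points: counting in progressions
-/

set_option autoImplicit false
open Finset
open scoped Pointwise

namespace H947FG

/-- no five points of `A` lie on a common affine plane `{x | u·x = c}`, `u ≠ 0` -/
def FiveGen (A : Finset (Fin 3 → ℝ)) : Prop :=
  ∀ (u : Fin 3 → ℝ) (c : ℝ), u ≠ 0 → (A.filter (fun x => ∑ i, u i * x i = c)).card ≤ 4

theorem exists_normal (a b : Fin 3 → ℝ) :
    ∃ u : Fin 3 → ℝ, u ≠ 0 ∧ ∑ i, u i * a i = 0 ∧ ∑ i, u i * b i = 0 := by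
  let f : (Fin 3 → ℝ) →ₗ[ℝ] (Fin 2 → ℝ) :=
    LinearMap.pi ![Fintype.linearCombination ℝ a, Fintype.linearCombination ℝ b]
  have hf : LinearMap.ker f ≠ ⊥ := by
    apply LinearMap.ker_ne_bot_of_finrank_lt
    simp
  obtain ⟨u, hu, hu0⟩ := (Submodule.ne_bot_iff _).1 hf
  rw [LinearMap.mem_ker] at hu
  refine ⟨u, hu0, ?_, ?_⟩
  · have := congrFun hu 0
    simpa [f, Fintype.linearCombination_apply] using this
  · have := congrFun hu 1
    simpa [f, Fintype.linearCombination_apply] using this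

/-- the points of `A` in a translated box progression -/
theorem pair_bound {d : ℕ} (A : Finset (Fin 3 → ℝ)) (hA : FiveGen A) (v : Fin d → Fin 3 → ℝ)
    (N : Fin d → ℕ) (t : Fin 3 → ℝ) (At : Finset (Fin 3 → ℝ)) (hAt : At ⊆ A)
    (hN : ∀ a ∈ At, ∃ n : Fin d → ℕ, (∀ i, n i < N i) ∧ a = t + ∑ i, n i • v i)
    (i j : Fin d) (hij : i ≠ j) :
    At.card * (N i * N j) ≤ 4 * ∏ k, N k := by
  classical
  obtain ⟨u, hu0, hui, huj⟩ := exists_normal (v i) (v j)
  choose! n hn hna using hN
  -- key: forget coordinates i and j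
  let key : (Fin 3 → ℝ) → (Fin d → ℕ) := fun a k => if k = i ∨ k = j then 0 else n a k
  let box : Finset (Fin d → ℕ) :=
    Fintype.piFinset (fun k => if k = i ∨ k = j then {0} else Finset.range (N k))
  have hmaps : ∀ a ∈ At, key a ∈ box := by
    intro a ha
    rw [Fintype.mem_piFinset]
    intro k
    by_cases hk : k = i ∨ k = j
    · simp [key, hk]
    · simp [key, hk, hn a ha k]
  have hdot : ∀ a ∈ At, ∑ l, u l * a l = ∑ l, u l * t l + ∑ k, (key a k : ℝ) * ∑ l, u l * v k l := by
    intro a ha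
    have h1 : ∀ l, a l = t l + ∑ k, (n a k : ℝ) * v k l := by
      intro l
      have := congrFun (hna a ha) l
      simpa [Finset.sum_apply] using this
    calc ∑ l, u l * a l = ∑ l, (u l * t l + ∑ k, (n a k : ℝ) * (u l * v k l)) := by
          refine Finset.sum_congr rfl fun l _ => ?_
          rw [h1 l, mul_add, Finset.mul_sum]
          congr 1
          refine Finset.sum_congr rfl fun k _ => by ring
      _ = ∑ l, u l * t l + ∑ k, (n a k : ℝ) * ∑ l, u l * v k l := by
          rw [Finset.sum_add_distrib, Finset.sum_comm]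
          congr 1
          refine Finset.sum_congr rfl fun k _ => ?_
          rw [Finset.mul_sum]
      _ = _ := by
          congr 1
          refine Finset.sum_congr rfl fun k _ => ?_
          by_cases hk : k = i ∨ k = j
          · rcases hk with rfl | rfl
            · rw [hui, mul_zero, mul_zero]
            · rw [huj, mul_zero, mul_zero]
          · simp [key, hk]
  have hfib : ∀ b ∈ box, (At.filter (fun a => key a = b)).card ≤ 4 := by
    intro b _
    refine le_trans (Finset.card_le_card ?_)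
      (hA u (∑ l, u l * t l + ∑ k, (b k : ℝ) * ∑ l, u l * v k l) hu0)
    intro a ha
    rw [Finset.mem_filter] at ha ⊢
    refine ⟨hAt ha.1, ?_⟩
    rw [hdot a ha.1, ha.2]
  have hcard : At.card ≤ 4 * box.card :=
    Finset.card_le_mul_card_image_of_maps_to hmaps 4 hfib
  have hbox : box.card * (N i * N j) = ∏ k, N k := by
    rw [Fintype.card_piFinset]
    have h1 : ∀ k, (if k = i ∨ k = j then ({0} : Finset ℕ) else Finset.range (N k)).card =
        if k = i ∨ k = j then 1 else N k := by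
      intro k; split_ifs <;> simp
    simp only [h1]
    rw [← Finset.mul_prod_erase Finset.univ N (Finset.mem_univ i),
      ← Finset.mul_prod_erase (Finset.univ.erase i) N
        (Finset.mem_erase.mpr ⟨hij.symm, Finset.mem_univ j⟩),
      ← Finset.mul_prod_erase Finset.univ (fun k => if k = i ∨ k = j then 1 else N k)
        (Finset.mem_univ i),
      ← Finset.mul_prod_erase (Finset.univ.erase i) (fun k => if k = i ∨ k = j then 1 else N k)
        (Finset.mem_erase.mpr ⟨hij.symm, Finset.mem_univ j⟩)]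
    have h2 : ∏ x ∈ (Finset.univ.erase i).erase j, (if x = i ∨ x = j then 1 else N x) =
        ∏ x ∈ (Finset.univ.erase i).erase j, N x := by
      refine Finset.prod_congr rfl fun x hx => ?_
      rw [Finset.mem_erase, Finset.mem_erase] at hx
      rw [if_neg]
      rintro (h | h)
      · exact hx.2.1 h
      · exact hx.1 h
    rw [h2]
    simp only [true_or, or_true, if_true]
    ring
  calc At.card * (N i * N j) ≤ (4 * box.card) * (N i * N j) := Nat.mul_le_mul_right _ hcard
    _ = 4 * ∏ k, N k := by rw [mul_assoc, hbox]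

/-- at most one generator: at most 4 points -/
theorem small_bound {d : ℕ} (hd : d ≤ 1) (A : Finset (Fin 3 → ℝ)) (hA : FiveGen A)
    (v : Fin d → Fin 3 → ℝ) (t : Fin 3 → ℝ) (At : Finset (Fin 3 → ℝ)) (hAt : At ⊆ A)
    (hN : ∀ a ∈ At, ∃ n : Fin d → ℕ, a = t + ∑ i, n i • v i) : At.card ≤ 4 := by
  classical
  obtain ⟨w, hw⟩ : ∃ w : Fin 3 → ℝ, ∀ a ∈ At, ∃ m : ℕ, a = t + m • w := by
    interval_cases d
    · refine ⟨0, fun a ha => ?_⟩
      obtain ⟨n, hn⟩ := hN a ha
      refine ⟨0, ?_⟩
      rw [hn]; simp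
    · refine ⟨v 0, fun a ha => ?_⟩
      obtain ⟨n, hn⟩ := hN a ha
      refine ⟨n 0, ?_⟩
      rw [hn]; simp
  obtain ⟨u, hu0, hu, -⟩ := exists_normal w w
  refine le_trans (Finset.card_le_card ?_) (hA u (∑ l, u l * t l) hu0)
  intro a ha
  rw [Finset.mem_filter]
  refine ⟨hAt ha, ?_⟩
  obtain ⟨m, hm⟩ := hw a ha
  have h1 : ∀ l, a l = t l + (m : ℝ) * w l := by
    intro l
    have := congrFun hm l
    simpa using this
  calc ∑ l, u l * a l = ∑ l, (u l * t l + (m : ℝ) * (u l * w l)) := by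
        refine Finset.sum_congr rfl fun l _ => by rw [h1 l]; ring
    _ = ∑ l, u l * t l := by
        rw [Finset.sum_add_distrib, ← Finset.mul_sum, hu, mul_zero, add_zero]

/-- the counting bound -/
theorem count {d : ℕ} (A : Finset (Fin 3 → ℝ)) (hne : A.Nonempty) (hA : FiveGen A)
    (v : Fin d → Fin 3 → ℝ) (N : Fin d → ℕ) (hN1 : ∀ i, 1 ≤ N i) (hNA : ∏ i, N i ≤ A.card)
    (T : Finset (Fin 3 → ℝ))
    (hT : ∀ a ∈ A, ∃ t ∈ T, ∃ n : Fin d → ℕ, (∀ i, n i < N i) ∧ a = t + ∑ i, n i • v i) :
    A.card ^ 2 ≤ (4 * T.card) ^ (max d 2) := by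
  classical
  -- pigeonhole
  obtain ⟨t, ht, At, hAt, hAtn, hcard⟩ : ∃ t ∈ T, ∃ At ⊆ A,
      (∀ a ∈ At, ∃ n : Fin d → ℕ, (∀ i, n i < N i) ∧ a = t + ∑ i, n i • v i) ∧
      A.card ≤ T.card * At.card := by
    choose! τ hτ hτn using hT
    have hTne : T.Nonempty := by
      obtain ⟨a, ha⟩ := hne
      exact ⟨τ a, hτ a ha⟩
    obtain ⟨t, ht, hmax⟩ := Finset.exists_max_image T
      (fun y => (A.filter (fun a => τ a = y)).card) hTne
    refine ⟨t, ht, A.filter (fun a => τ a = t), Finset.filter_subset _ _, ?_, ?_⟩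
    · intro a ha
      rw [Finset.mem_filter] at ha
      rw [← ha.2]
      exact hτn a ha.1
    · rw [mul_comm]
      exact Finset.card_le_mul_card_image_of_maps_to hτ _ hmax
  rcases Nat.lt_or_ge d 2 with hd | hd
  · have h4 : At.card ≤ 4 := small_bound (by omega) A hA v t At hAt (fun a ha => by
      obtain ⟨n, _, hn⟩ := hAtn a ha
      exact ⟨n, hn⟩)
    rw [max_eq_right (by omega)]
    apply Nat.pow_le_pow_left
    calc A.card ≤ T.card * At.card := hcard
      _ ≤ T.card * 4 := Nat.mul_le_mul_left _ h4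
      _ = 4 * T.card := by ring
  · rw [max_eq_left hd]
    obtain ⟨m, rfl⟩ : ∃ m, d = m + 2 := ⟨d - 2, by omega⟩
    set Q := ∏ i, N i with hQ
    have hQ1 : 1 ≤ Q := by
      rw [hQ]
      exact Finset.one_le_prod' (fun i _ => hN1 i)
    have h1 : ∀ i : Fin (m + 2), At.card * (N i * N (i + 1)) ≤ 4 * Q := by
      intro i
      apply pair_bound A hA v N t At hAt hAtn
      intro h
      have : (1 : Fin (m + 2)) = 0 := by
        have h2 : i + 0 = i + 1 := by rw [add_zero]; exact h
        exact (add_left_cancel h2).symm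
      exact absurd this (by simp)
    have h2 : ∏ i : Fin (m + 2), (At.card * (N i * N (i + 1))) ≤ ∏ _i : Fin (m + 2), (4 * Q) :=
      Finset.prod_le_prod' (fun i _ => h1 i)
    have hshift : ∏ i : Fin (m + 2), N (i + 1) = ∏ i, N i :=
      Equiv.prod_comp (Equiv.addRight (1 : Fin (m + 2))) N
    rw [Finset.prod_mul_distrib, Finset.prod_mul_distrib, Finset.prod_const, Finset.prod_const,
      Finset.card_univ, Fintype.card_fin, hshift] at h2
    rw [← hQ] at h2
    -- At^(m+2) * (Q * Q) ≤ (4 Q)^(m+2)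
    have h3 : At.card ^ (m + 2) ≤ 4 ^ (m + 2) * Q ^ m := by
      have e : (4 * Q) ^ (m + 2) = (4 ^ (m + 2) * Q ^ m) * (Q * Q) := by
        rw [mul_pow]; ring
      rw [e] at h2
      exact Nat.le_of_mul_le_mul_right h2 (by positivity)
    have h4 : Q ^ m ≤ A.card ^ m := Nat.pow_le_pow_left hNA m
    have h5 : A.card ^ (m + 2) ≤ (4 * T.card) ^ (m + 2) * A.card ^ m := by
      calc A.card ^ (m + 2) ≤ (T.card * At.card) ^ (m + 2) := Nat.pow_le_pow_left hcard _
        _ = T.card ^ (m + 2) * At.card ^ (m + 2) := by rw [mul_pow]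
        _ ≤ T.card ^ (m + 2) * (4 ^ (m + 2) * A.card ^ m) :=
          Nat.mul_le_mul_left _ (h3.trans (Nat.mul_le_mul_left _ h4))
        _ = (4 * T.card) ^ (m + 2) * A.card ^ m := by rw [mul_pow]; ring
    have hApos : 0 < A.card ^ m := pow_pos hne.card_pos m
    have e2 : A.card ^ (m + 2) = A.card ^ 2 * A.card ^ m := by ring
    rw [e2] at h5
    exact Nat.le_of_mul_le_mul_right h5 hApos

end H947FG
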