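import Pool.Agent.H947R2.FG.Count
import Pool.Agent.H947R2.FG.Ana
import Pool.Agent.H112R2.FinalGap

set_option autoImplicit false
open Finset
open scoped Pointwise

namespace H947FG

theorem final (A : Finset (Fin 3 → ℝ)) (hA : FiveGen A) (h16 : 16 ≤ A.card) :
    (A.card : ℝ) * Real.exp ((1 / 10000) *
      Real.sqrt (Real.log A.card / Real.log (Real.log A.card))) ≤ (A + A).card := by
  have hne : A.Nonempty := by rw [← Finset.card_pos]; omega
  have hn0 : (0 : ℝ) < A.card := by exact_mod_cast hne.card_pos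
  have hn16 : (16 : ℝ) ≤ A.card := by exact_mod_cast h16
  obtain ⟨K, hKdef⟩ : ∃ K : ℝ, K = ((A + A).card : ℝ) / A.card := ⟨_, rfl⟩
  have hKA : K * A.card = (A + A).card := by rw [hKdef]; field_simp
  have hcd : A.card + A.card - 1 ≤ (A + A).card := cauchy_davenport_of_isAddTorsionFree hne hne
  have hcdR : (A.card : ℝ) + A.card - 1 ≤ (A + A).card := by
    have h1 : A.card + A.card ≤ (A + A).card + 1 := by omega
    have h2 : ((A.card : ℝ) + A.card) ≤ (A + A).card + 1 := by exact_mod_cast h1
    linarith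
  have hK31 : 31 / 16 ≤ K := by
    have h1 : 31 / 16 * (A.card : ℝ) ≤ K * A.card := by rw [hKA]; linarith
    exact le_of_mul_le_mul_right h1 hn0
  have hK0 : 0 < K := by linarith
  obtain ⟨l, hl⟩ : ∃ l : ℝ, l = Real.log K := ⟨_, rfl⟩
  have hl2 : 1 / 2 ≤ l := by
    rw [hl, Real.le_log_iff_exp_le hK0]
    refine le_trans ?_ hK31
    have h1 : Real.exp (1 / 2) ^ 2 = Real.exp 1 := by
      rw [← Real.exp_nat_mul]; norm_num
    have h2 := Real.exp_one_lt_d9
    have h3 : Real.exp (1 / 2) ^ 2 ≤ (31 / 16) ^ 2 := by rw [h1]; norm_num; linarith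
    exact le_of_sq_le_sq h3 (by norm_num)
  have hlog2K : Real.log (2 * K) = Real.log 2 + l := by
    rw [Real.log_mul (by norm_num) hK0.ne', hl]
  obtain ⟨d, v, N, T, hd, hN1, _, hNA, hTc, hcov⟩ :=
    H112.near_pfr_gap' (G := Fin 3 → ℝ) (fun n x hn hx => by
      ext i
      have h1 := congrFun hx i
      simp only [Pi.smul_apply, nsmul_eq_mul, Pi.zero_apply, mul_eq_zero, Nat.cast_eq_zero] at h1
      rcases h1 with h1 | h1
      · exact absurd h1 hn
      · exact h1) (K := K) (A := A) hne (by rw [hKA])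
  have hcount := count A hne hA v N hN1 hNA T hcov
  have hTne : T.Nonempty := by
    obtain ⟨a, ha⟩ := hne
    obtain ⟨t, ht, _⟩ := hcov a ha
    exact ⟨t, ht⟩
  have hT0 : (0 : ℝ) < T.card := by exact_mod_cast hTne.card_pos
  rw [hlog2K] at hd hTc
  have hlog2 : 693 / 1000 < Real.log 2 := by have := Real.log_two_gt_d9; linarith
  have hlogT : Real.log T.card ≤
      17000 * (1 + Real.log (1 + (Real.log 2 + l))) * (Real.log 2 + l) := by
    have h1 := Real.log_le_log hT0 hTc
    rw [Real.log_rpow (by positivity), hlog2K] at h1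
    exact h1
  have hD : ((max d 2 : ℕ) : ℝ) ≤ 300 * (Real.log 2 + l) := by
    rw [Nat.cast_max]
    apply max_le hd
    push_cast
    linarith
  have h2X : 2 * Real.log A.card ≤ ((max d 2 : ℕ) : ℝ) * (Real.log 4 +
      17000 * (1 + Real.log (1 + (Real.log 2 + l))) * (Real.log 2 + l)) := by
    have h1 : ((A.card : ℝ)) ^ 2 ≤ (4 * T.card) ^ (max d 2) := by exact_mod_cast hcount
    have h2 := Real.log_le_log (by positivity) h1
    rw [Real.log_pow, Real.log_pow, Real.log_mul (by norm_num) hT0.ne'] at h2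
    have h3 : ((max d 2 : ℕ) : ℝ) * (Real.log 4 + Real.log T.card) ≤
        ((max d 2 : ℕ) : ℝ) * (Real.log 4 +
          17000 * (1 + Real.log (1 + (Real.log 2 + l))) * (Real.log 2 + l)) := by
      apply mul_le_mul_of_nonneg_left _ (by positivity)
      linarith
    push_cast at h2 h3 ⊢
    linarith
  have hX : Real.log 16 ≤ Real.log A.card := Real.log_le_log (by norm_num) hn16
  have hfin := analysis (Real.log A.card) l ((max d 2 : ℕ) : ℝ) hX hl2 hD (by positivity) h2X
  have hexp : Real.exp ((1 / 10000) *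
      Real.sqrt (Real.log A.card / Real.log (Real.log A.card))) ≤ K := by
    calc _ ≤ Real.exp l := Real.exp_le_exp.mpr hfin
      _ = K := by rw [hl, Real.exp_log hK0]
  calc (A.card : ℝ) * Real.exp _ ≤ A.card * K := mul_le_mul_of_nonneg_left hexp hn0.le
    _ = (A + A).card := by rw [mul_comm]; exact hKA

end H947FG
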